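import Mathlib

/-! For every abelian group `X` and all `i, j` in `X`, not both zero, the elements `a_i` and `x_j`
of the square complex group `G_X` generate an anti-torus. -/

set_option autoImplicit false

namespace Pool.Agent.Results.MP_216313_al.AllAntiTori

open Polynomial

universe u

/-! ### Definitions -/

/-- The relators `a_i x_j (a_{i-j})⁻¹ (x_{i+j})⁻¹` of the group `G_X`.  The generator `a_i` is
`FreeGroup.of (Sum.inl i)` and the generator `x_j` is `FreeGroup.of (Sum.inr j)`. -/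
def relators (X : Type u) [AddCommGroup X] : Set (FreeGroup (X ⊕ X)) :=
  {r | ∃ i j : X, r = FreeGroup.of (Sum.inl i) * FreeGroup.of (Sum.inr j) *
    (FreeGroup.of (Sum.inl (i - j)))⁻¹ * (FreeGroup.of (Sum.inr (i + j)))⁻¹}

/-- The group `G_X = ⟨ a_i, x_j (i, j ∈ X) ∣ a_i x_j = x_{i+j} a_{i-j} (i, j ∈ X) ⟩`. -/
abbrev GX (X : Type u) [AddCommGroup X] : Type u := PresentedGroup (relators X)

/-- The generator `a_i` of `G_X`. -/
def a {X : Type u} [AddCommGroup X] (i : X) : GX X := PresentedGroup.of (Sum.inl i)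

/-- The generator `x_j` of `G_X`. -/
def x {X : Type u} [AddCommGroup X] (j : X) : GX X := PresentedGroup.of (Sum.inr j)

/-- Two elements `g, h` of a group generate an anti-torus if `g ^ p` and `h ^ q` do not commute
for any non-zero integers `p, q`. -/
def GenerateAntiTorus {G : Type u} [Group G] (g h : G) : Prop :=
  ∀ p q : ℤ, p ≠ 0 → q ≠ 0 → g ^ p * h ^ q ≠ h ^ q * g ^ p

/-! ### A representation of `G_X` by affine maps -/

section rep

variable {X : Type u} [AddCommGroup X] {K : Type u} [CommRing K] (ι : X →+ K) (A B : Kˣ)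

/-- The affine map `m ↦ A m + i`. -/
def aPerm (i : X) : Equiv.Perm K where
  toFun m := A * m + ι i
  invFun m := (A⁻¹ : Kˣ) * (m - ι i)
  left_inv m := by simp
  right_inv m := by simp

/-- The affine map `m ↦ B (m - j) + j`. -/
def xPerm (j : X) : Equiv.Perm K where
  toFun m := B * (m - ι j) + ι j
  invFun m := (B⁻¹ : Kˣ) * (m - ι j) + ι j
  left_inv m := by simp
  right_inv m := by simp

lemma aPerm_apply (i : X) (m : K) : aPerm ι A i m = A * m + ι i := rfl

lemma xPerm_apply (j : X) (m : K) : xPerm ι B j m = B * (m - ι j) + ι j := rfl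

lemma rel (hAB : (A : K) * (1 - B) = 1 - 2 * B) (i j : X) :
    aPerm ι A i * xPerm ι B j = xPerm ι B (i + j) * aPerm ι A (i - j) := by
  ext m
  rw [Equiv.Perm.mul_apply, Equiv.Perm.mul_apply, aPerm_apply, aPerm_apply, xPerm_apply,
    xPerm_apply, map_add, map_sub]
  linear_combination (ι j) * hAB

/-- The representation of `G_X` on `K`. -/
def rep (hAB : (A : K) * (1 - B) = 1 - 2 * B) : GX X →* Equiv.Perm K :=
  PresentedGroup.toGroup (f := Sum.elim (aPerm ι A) (xPerm ι B)) (by
    rintro r ⟨i, j, rfl⟩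
    simp only [map_mul, map_inv, FreeGroup.lift_apply_of, Sum.elim_inl, Sum.elim_inr]
    rw [rel ι A B hAB i j]
    group)

lemma rep_a (hAB : (A : K) * (1 - B) = 1 - 2 * B) (i : X) : rep ι A B hAB (a i) = aPerm ι A i := by
  unfold rep a
  rw [PresentedGroup.toGroup.of]
  rfl

lemma rep_x (hAB : (A : K) * (1 - B) = 1 - 2 * B) (j : X) : rep ι A B hAB (x j) = xPerm ι B j := by
  unfold rep x
  rw [PresentedGroup.toGroup.of]
  rfl

lemma aPerm_pow (i : X) (p : ℕ) (m : K) :
    (1 - (A : K)) * ((aPerm ι A i) ^ p) m = (1 - (A : K)) * A ^ p * m + (1 - (A : K) ^ p) * ι i := by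
  induction p generalizing m with
  | zero => simp
  | succ p ih =>
    rw [pow_succ, Equiv.Perm.mul_apply, ih, aPerm_apply]
    ring

lemma xPerm_pow (j : X) (q : ℕ) (m : K) :
    ((xPerm ι B j) ^ q) m = B ^ q * (m - ι j) + ι j := by
  induction q generalizing m with
  | zero => simp
  | succ q ih =>
    rw [pow_succ, Equiv.Perm.mul_apply, ih, xPerm_apply]
    ring

/-- The key equation: what commutation of the powers gives. -/
lemma key (hAB : (A : K) * (1 - B) = 1 - 2 * B) (i j : X) (p q : ℕ)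
    (h : Commute ((a i : GX X) ^ p) (x j ^ q)) :
    (1 - (B : K) ^ q) * ((1 - (A : K) ^ p) * (ι i - (1 - A) * ι j)) = 0 := by
  have h1 := congrArg (rep ι A B hAB) h.eq
  rw [map_mul, map_mul, map_pow, map_pow, rep_a, rep_x] at h1
  have h2 := DFunLike.congr_fun h1 (ι j)
  rw [Equiv.Perm.mul_apply, Equiv.Perm.mul_apply, xPerm_pow, xPerm_pow, sub_self, mul_zero,
    zero_add] at h2
  have h3 := aPerm_pow ι A i p (ι j)
  linear_combination (1 - (A : K)) * h2 - (1 - (B : K) ^ q) * h3

end rep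

/-! ### The coefficient ring -/

/-- The opposite action of the integers. -/
@[instance_reducible]
def modop (X : Type u) [AddCommGroup X] : Module ℤᵐᵒᵖ X :=
  Module.compHom X ((RingHom.id ℤ).fromOpposite (fun _ _ => Commute.all _ _))

/-- Every abelian group is a subgroup of the additive group of a nontrivial commutative ring. -/
lemma exists_ring (X : Type u) [AddCommGroup X] :
    ∃ (S : Type u) (_ : CommRing S) (_ : Nontrivial S) (ι : X →+ S), Function.Injective ι := by
  let _ : Module ℤᵐᵒᵖ X := modop X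
  have _ : IsCentralScalar ℤ X := ⟨fun m a => rfl⟩
  refine ⟨TrivSqZeroExt ℤ X, inferInstance, ⟨⟨TrivSqZeroExt.inl 0, TrivSqZeroExt.inl 1, ?_⟩⟩,
    TrivSqZeroExt.inrHom ℤ X |>.toAddMonoidHom, TrivSqZeroExt.inr_injective⟩
  intro h
  have := TrivSqZeroExt.inl_injective h
  exact zero_ne_one this

section poly

variable {S : Type u} [CommRing S] [Nontrivial S]

lemma reg_of_coeff_zero (P : S[X]) (h : IsUnit (P.coeff 0)) : P ∈ nonZeroDivisors S[X] := by
  apply mem_nonZeroDivisors_of_trailingCoeff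
  have h0 : P.coeff 0 ≠ 0 := h.ne_zero
  have h1 : P.natTrailingDegree = 0 := by
    apply Nat.eq_zero_of_le_zero
    exact natTrailingDegree_le_of_ne_zero h0
  rw [trailingCoeff, h1]
  exact h.mem_nonZeroDivisors

omit [Nontrivial S] in
lemma reg_X : (X : S[X]) ∈ nonZeroDivisors S[X] := monic_X.mem_nonZeroDivisors

lemma reg_one_sub_X : (1 - X : S[X]) ∈ nonZeroDivisors S[X] := by
  apply reg_of_coeff_zero
  simp

lemma reg_one_sub_two_X : (1 - 2 * X : S[X]) ∈ nonZeroDivisors S[X] := by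
  apply reg_of_coeff_zero
  simp

lemma reg_W (p : ℕ) (hp : p ≠ 0) : (X ^ p - (-(1 - 2 * X)) ^ p : S[X]) ∈ nonZeroDivisors S[X] := by
  apply reg_of_coeff_zero
  have h : (X ^ p - (-(1 - 2 * X)) ^ p : S[X]).coeff 0 = -(-1) ^ p := by
    rw [coeff_zero_eq_eval_zero]
    simp [hp]
  rw [h]
  exact ((isUnit_one.neg).pow p).neg

lemma poly_fact (c d : S) (q : ℕ) (hq : q ≠ 0)
    (h : (1 - (1 - X) ^ q : S[X]) * (X * C c - (1 - X) * C d) = 0) : c = 0 ∧ d = 0 := by
  have h1 : c = 0 := by
    have := congrArg (eval 1) h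
    simpa [hq] using this
  subst h1
  refine ⟨rfl, ?_⟩
  have h2 : ((1 - (1 - X) ^ q : S[X]) * C d) * (1 - X) = 0 := by
    rw [C_0, mul_zero, zero_sub] at h
    linear_combination -h
  have h3 := (mem_nonZeroDivisors_iff_right.1 reg_one_sub_X) _ h2
  have := congrArg (eval 1) h3
  simpa [hq] using this

end poly

/-- The case of positive exponents. -/
lemma nat_case (Y : Type u) [AddCommGroup Y] (i j : Y) (p q : ℕ) (hp : p ≠ 0) (hq : q ≠ 0)
    (h : Commute ((a i : GX Y) ^ p) (x j ^ q)) : i = 0 ∧ j = 0 := by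
  obtain ⟨S, _, _, ι, hι⟩ := exists_ring Y
  let K := Localization (nonZeroDivisors S[X])
  let φ : S[X] →+* K := algebraMap S[X] K
  have hφ : Function.Injective φ := IsLocalization.injective K le_rfl
  have hu : ∀ P ∈ nonZeroDivisors S[X], IsUnit (φ P) := fun P hP =>
    IsLocalization.map_units K ⟨P, hP⟩
  let T : Kˣ := (hu _ reg_X).unit
  let B : Kˣ := (hu _ reg_one_sub_X).unit
  let A : Kˣ := -((hu _ reg_one_sub_two_X).unit * T⁻¹)
  have hT : (T : K) = φ X := rfl
  have hB : (B : K) = 1 - φ X := by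
    show φ (1 - X) = _
    rw [map_sub, map_one]
  have hA : (A : K) * φ X = -(1 - 2 * φ X) := by
    have h1 : (A : K) = -(φ (1 - 2 * X) * ((T⁻¹ : Kˣ) : K)) := rfl
    have h2 : ((T⁻¹ : Kˣ) : K) * φ X = 1 := Units.inv_mul T
    have h3 : φ (1 - 2 * X) = 1 - 2 * φ X := by
      rw [map_sub, map_one, map_mul, map_ofNat]
    rw [h1, h3]
    linear_combination (-(1 - 2 * φ X)) * h2
  have hAB : (A : K) * (1 - B) = 1 - 2 * B := by
    rw [hB]
    linear_combination hA
  let ι' : Y →+ K := (φ.comp C).toAddMonoidHom.comp ι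
  have hι' : ∀ i, ι' i = φ (C (ι i)) := fun i => rfl
  have h1 := key ι' A B hAB i j p q h
  rw [hι', hι'] at h1
  have h2 : φ ((X ^ p - (-(1 - 2 * X)) ^ p) *
      ((1 - (1 - X) ^ q) * (X * C (ι i) - (1 - X) * C (ι j)))) = 0 := by
    have h3 : (A : K) ^ p * φ X ^ p = (-(1 - 2 * φ X)) ^ p := by rw [← mul_pow, hA]
    have h4 : φ X * (φ (C (ι i)) - (1 - A) * φ (C (ι j))) =
        φ X * φ (C (ι i)) - (1 - φ X) * φ (C (ι j)) := by
      linear_combination (φ (C (ι j))) * hA
    have h5 : φ X ^ p * (1 - (A : K) ^ p) = φ X ^ p - (-(1 - 2 * φ X)) ^ p := by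
      linear_combination -h3
    simp only [map_mul, map_sub, map_pow, map_neg, map_one, map_ofNat]
    rw [← h5, ← h4]
    rw [hB] at h1
    linear_combination (φ X ^ p * φ X) * h1
  rw [map_eq_zero_iff φ hφ, mul_comm] at h2
  have h3 := (mem_nonZeroDivisors_iff_right.1 (reg_W p hp)) _ h2
  obtain ⟨h4, h5⟩ := poly_fact _ _ q hq h3
  exact ⟨(map_eq_zero_iff ι hι).1 h4, (map_eq_zero_iff ι hι).1 h5⟩

lemma commute_natAbs {G : Type u} [Group G] (g h : G) (p q : ℤ) (hc : Commute (g ^ p) (h ^ q)) :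
    Commute (g ^ p.natAbs) (h ^ q.natAbs) := by
  have h1 : Commute (g ^ (p.natAbs : ℤ)) (h ^ q) := by
    rcases Int.natAbs_eq p with hp | hp
    · rwa [← hp]
    · rw [hp, zpow_neg] at hc
      exact Commute.inv_left_iff.1 hc
  have h2 : Commute (g ^ (p.natAbs : ℤ)) (h ^ (q.natAbs : ℤ)) := by
    rcases Int.natAbs_eq q with hq | hq
    · rwa [← hq]
    · rw [hq, zpow_neg] at h1
      exact Commute.inv_right_iff.1 h1
  rwa [zpow_natCast, zpow_natCast] at h2

/-- For every abelian group `X` (in particular for every finite abelian group of order greater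
than two) and all `i, j ∈ X` with `(i, j) ≠ (0, 0)`, the elements `a_i` and `x_j` of `G_X` generate
an anti-torus. -/
theorem result (X : Type u) [AddCommGroup X] (i j : X) (hij : (i, j) ≠ (0, 0)) :
    GenerateAntiTorus (a i) (x j) := by
  intro p q hp hq h
  have h1 := commute_natAbs _ _ p q h
  obtain ⟨rfl, rfl⟩ := nat_case X i j _ _ (Int.natAbs_ne_zero.2 hp) (Int.natAbs_ne_zero.2 hq) h1
  exact hij rfl

end Pool.Agent.Results.MP_216313_al.AllAntiTori
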